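import Mathlib
import Pool.Agent.V5helper98.GP.Main

/-!
# The period conjecture for cycles: abelian varieties of CM type of prime dimension, and most CM types

Let `A i = (E i, Φ i)` be finitely many abelian varieties with complex multiplication by CM fields
`E i`, of CM types `Φ i`, defined over the field of all algebraic numbers, and let `X` be a product of
copies of the `A i`. The conjecture `GPC ^ m (X)` says that all de Rham-Betti classes, that is all
classes `f ∈ H^{2m}(X, ℚ)` such that `(2 π i) ^ m f` lies in `H^{2m}_dR(X / ℚ̄)`, are rational linear
combinations of classes of algebraic cycles. It follows from the two statements that all de Rham-Betti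
classes are Hodge classes (`AllHodge`) and that the Hodge conjecture holds for `X`, and it is proved
in a strong form if all de Rham-Betti classes on all `X` are combinations of intersections of divisors
(`AllDRBDivisorial`).

**The fields.** `IsAbelian E`: the CM field `E` is an abelian extension of `ℚ`.
`FewPerClass E` (a definition of the starting files): the degree of `E` is `2 n` with `n = 1`, or `n`
a prime number, or `n` a product of two prime numbers and the embeddings do not form one class, or
`v > n / 4`, or `v > n / 9` and `n` is odd; here `2 ^ v` is the number of the sets `D` of embeddings of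
`E` such that some automorphism of `ℂ` conjugates the elements of `D` and fixes all other embeddings
(the degree of the Galois closure of `E` over that of its maximal real subfield), and the classes are
those of the equivalence relation generated by not being flipped; `x` and `y` are flipped if some
automorphism fixes `x` and conjugates `y`, or maps `x` to `y` and `y` to the conjugate of `x`.
`Admissible E`: `E` is abelian, or has `FewPerClass` and all its CM subfields, besides `E` itself, are
abelian extensions of `ℚ` (for instance imaginary quadratic fields).

Two fields `F`, `F'` are independent (`IndepPair`) if for all complex embeddings `φ`, `ψ` of `F`, `F'`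
some automorphism of `ℂ` is the identity on `φ (F)` and the complex conjugation on `ψ (F')`;
`PairwiseIndep`: this holds for `E i` and `E j` for all `i ≠ j` (no condition for one field);
`AbelianOrIndep`: for all `i ≠ j` both fields are abelian extensions of `ℚ` or they are independent of
each other.

**The theorem.**

1. If all `E i` are admissible and any two of them are abelian or independent, then for all types `Φ i`
   all de Rham-Betti classes on all products `X` are Hodge classes. So the conjecture `GPC` for `X` is
   equivalent to the Hodge conjecture for `X`.
2. If all `E i` are admissible and pairwise independent and all types `Φ i` are nondegenerate (their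
   reflex norms have the rank `g i + 1`), then all de Rham-Betti classes on all products are
   combinations of intersections of divisors. If the `A i` are simple, this is an equivalence.
3. Fields of degree `2 p`, `p` a prime number or `p = 1`, are admissible, and the types of simple
   abelian varieties with such fields are nondegenerate. So `GPC` holds, for all `m`, for all products of
   copies of **simple abelian varieties of CM type of prime dimension** and CM elliptic curves with
   pairwise independent fields, in particular for all powers of one of them.
4. **Abelian fields**: for pairwise independent CM fields `K i` that are abelian over `ℚ`, of degrees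
   `2 g i`, the number of the families of CM types `Φ i` for which `AllDRBDivisorial` fails is at most
   `2 ^ (∑ g i) ∑ ρ (K i)`, where `ρ (K)` is the sum over the imaginary cyclic subfields `T` of `K`, of
   degree `m`, of `(binom n (n / 2) / 2 ^ n) ^ φ (m)`, `n = [K : T]` (and of `0` if `m` is a power of
   two and `n` is odd).
5. **Degree `2 r ^ k`**: for pairwise independent admissible CM fields `K i` of degrees
   `2 g i = 2 (r i) ^ (k i)`, `r i` prime numbers, `g i ≥ 8` if `r i = 2`, it holds for at least
   `∏ (1 - 1 / r i)` of the `2 ^ (∑ g i)` families of CM types.
6. There is a number `g₀` such that it holds for at least 16 percent, to the power of the number of the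
   fields, of all families of CM types, for all pairwise independent CM fields that are abelian over
   `ℚ` and have degrees at least `2 g₀`; here nothing is assumed on the subfields.

The periods enter as a `PeriodSystem` (helper537): a nonzero number `θ A φ` for every CM type
`A = (E, Φ)` and every embedding `φ` of `E`, such that the theorem of Bost (de Rham-Betti classes of
degree two on abelian varieties of CM type are Hodge classes; a consequence of the theorem of
Wüstholz) and the theorem of Deligne (Hodge classes on abelian varieties are de Rham-Betti classes)
hold. Both are theorems for the true periods.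

**What is new.** The starting files prove the statement in 1 for families of abelian fields
(`AbelianCMTensors`, `MildCMMotives`) and for families without proper CM subfields
(`GoodClassCMMotives`), and `AllDRBDivisorial` for fields with `v > n / 3` (`ClassesOfTwoPairs`). New
are families that contain both sorts of fields, the fields with `FewPerClass` that contain abelian CM
fields, in particular the fields of degree `2 p` that contain an imaginary quadratic field, and with
them 3, and the statements 4, 5, 6 on most CM types.

**The proof.** In 1, if the fields `T i` of a family of CM subfields are not all abelian, then one of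
them is some non-abelian `E i`, all other `E j` are independent of it, so that the class of an embedding
of `E i` in the whole family is its class in `E i`, which is good; the relations between periods of two
CM subfields are explained since the excess is `±1` on `E i` itself and since no CM subfield of `E j` is
isomorphic to one of `E i`. In 3 the excess of a type over an imaginary quadratic subfield is odd if
`p` is odd, and a field of degree four with such a subfield has no primitive types.
-/

set_option autoImplicit false

namespace Pool.Agent.Results.MP_bf54cf_ag.MostCMTypes

open NumberField Module Pool.Agent.W547.KB Pool.Agent.W537.PC Pool.Agent.W527.Struct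
  Pool.Agent.W527.Per Pool.Agent.TH127.SC Pool.Agent.TH127.PG Pool.Agent.H204R3.CM
  Pool.Agent.H977R3.CM Pool.Agent.V5helper98.GP

/-- **De Rham-Betti classes on products of abelian varieties of CM type: admissible fields, prime
dimension, and most CM types.** -/
theorem result (P : PeriodSystem) (hBost : P.Bost) (hDeligne : P.Deligne) :
    -- 1
    (∀ {ι : Type} [Fintype ι] (A : ι → CMPair), AbelianOrIndep (fun i => (A i).E) →
      (∀ i, Admissible (A i).E) → AllHodge P A) ∧
    -- 2
    (∀ {ι : Type} [Fintype ι] (A : ι → CMPair), PairwiseIndep (fun i => (A i).E) →
      (∀ i, Admissible (A i).E) →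
      ((∀ i, Nondegenerate (A i).Φ) → AllDRBDivisorial A P) ∧
      ((∀ i, IsSimple (A i)) → AllDRBDivisorial A P → ∀ i, Nondegenerate (A i).Φ)) ∧
    -- 3
    ((∀ B : CMPair, PrimeDegree B.E → Admissible B.E ∧ (IsSimple B → Nondegenerate B.Φ)) ∧
      ∀ {ι : Type} [Fintype ι] (A : ι → CMPair), PairwiseIndep (fun i => (A i).E) →
        (∀ i, IsSimple (A i)) → (∀ i, PrimeDegree (A i).E) → AllDRBDivisorial A P) ∧
    -- 4
    (∀ (I : Type) [Fintype I] (K : I → Type) [∀ i, Field (K i)] [∀ i, NumberField (K i)]
      [∀ i, IsCMField (K i)] (g : I → ℕ), PairwiseIndep K → (∀ i, IsAbelian (K i)) →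
      (∀ i, finrank ℚ (K i) = 2 * g i) →
      (({Φ : ∀ i, Set (K i →+* ℂ) | (∀ i, IsCMType (Φ i)) ∧ ¬ Holds P K Φ}.ncard : ℕ) : ℝ) ≤
        2 ^ (∑ i, g i) * ∑ i, rho (K i)) ∧
    -- 5
    (∀ (I : Type) [Fintype I] (K : I → Type) [∀ i, Field (K i)] [∀ i, NumberField (K i)]
      [∀ i, IsCMField (K i)] (r k : I → ℕ), PairwiseIndep K → (∀ i, Admissible (K i)) →
      (∀ i, (r i).Prime) → (∀ i, finrank ℚ (K i) = 2 * r i ^ k i) →
      (∀ i, r i = 2 → 8 ≤ r i ^ k i) →
      (∏ i, (1 - 1 / (r i : ℝ))) * 2 ^ (∑ i, r i ^ k i) ≤
        (({Φ : ∀ i, Set (K i →+* ℂ) | (∀ i, IsCMType (Φ i)) ∧ Holds P K Φ}.ncard : ℕ) : ℝ)) ∧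
    -- 6
    (∃ g₀ : ℕ, ∀ (I : Type) [Fintype I] (K : I → Type) [∀ i, Field (K i)] [∀ i, NumberField (K i)]
      [∀ i, IsCMField (K i)] (g : I → ℕ), PairwiseIndep K → (∀ i, IsAbelian (K i)) →
      (∀ i, g₀ ≤ g i) → (∀ i, finrank ℚ (K i) = 2 * g i) →
      (4 / 25 : ℝ) ^ Fintype.card I * 2 ^ (∑ i, g i) ≤
        (({Φ : ∀ i, Set (K i →+* ℂ) | (∀ i, IsCMType (Φ i)) ∧ Holds P K Φ}.ncard : ℕ) : ℝ)) := by
  refine ⟨fun A hind hadm => allHodge_of_admissible hBost hDeligne hind hadm,
    fun A hind hadm => ⟨fun h => drb_of_nondegenerate hBost hDeligne hind hadm h,
      fun hs h i => nondegenerate_of_divisorial ((allDRBDivisorial_iff hDeligne).1 h).2 i (hs i)⟩,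
    ⟨fun B hB => ⟨admissible_of_prime hB, fun hs => not_degenerate_of_prime hs hB⟩,
      fun A hind hs hp => drb_of_nondegenerate hBost hDeligne hind
        (fun i => admissible_of_prime (hp i)) fun i => not_degenerate_of_prime (hs i) (hp i)⟩,
    fun I _ K _ _ _ g hind hab hg => exceptions_abelian hBost hDeligne hind hab hg,
    fun I _ K _ _ _ r k hind hadm hr hdeg h8 => share_prime hBost hDeligne hind hadm hr hdeg h8, ?_⟩
  obtain ⟨g₀, h⟩ := Pool.Agent.Q29.DP.fam_abelian
  refine ⟨g₀, ?_⟩
  intro I _ K _ _ _ g hind hab hg0 hg
  have _ : ∀ i, IsGalois ℚ (K i) := fun i => (hab i).1
  exact h I K (fun _ _ => 1) g _ (fun i => (hab i).2) (fun _ _ => odd_one) (fun _ _ => rfl) hg0 hg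
    fun Φ hΦ hno => holds_of_nondegenerate hBost hDeligne hind (fun i => Or.inl (hab i))
      fun i => nondegenerate_of_noRelations (hno i)

end Pool.Agent.Results.MP_bf54cf_ag.MostCMTypes
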