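import Pool.Agent.V5helper88.ID.I11
import Pool.Agent.V5helper88.L.L5

set_option autoImplicit false

/-!
# The Grothendieck period conjecture for squares of abelian surfaces, for abelian fourfolds with
# quaternionic multiplication, and for their products

Let `C` be an abelian variety over the field `ℚ̄` of algebraic numbers. We prove `GPC ^ k (C)` for all `k`,
and more precisely that all classes in `H_Gr(C)` are combinations of products of divisor classes, in
the following cases.

* `C = A × A`, where `A` is an abelian surface with `End(A) = ℤ`; more generally `C` is isogenous to an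
  abelian subvariety of `A_1 ^ 2 × ⋯ × A_n ^ 2`, where the `A_i` are *of type four* (`IsTypeFour`: isogenous
  to a product of pairwise non-isogenous simple abelian varieties, whose endomorphism algebra is a
  totally real field of degree half of the dimension) without homomorphisms between different `A_i`.
  For example the `A_i` are pairwise non-isogenous abelian surfaces with `End = ℤ`, and `C` is
  any product of powers `A_i ^ {r_i}` with `r_i ≤ 2`.
* `C` is an abelian fourfold whose endomorphism algebra is an indefinite quaternion algebra over `ℚ`;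
  more generally an abelian variety of dimension `4 e` whose endomorphism algebra is a totally
  indefinite quaternion algebra over a totally real field of degree `e`, or a product of such
  varieties and of powers as above, which are pairwise without homomorphisms (`IsDouble`). (The
  element `P` in the definition is a symmetric element of the quaternion algebra which is not in the
  centre. For `A × A` it is the diagonal endomorphism `(P', P' + n)`.)

Nothing is assumed about periods: `AbVar` is the description of an abelian variety by theta functions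
(see `Pool/Agent/Y102/AVDefs.lean`), and the theorem of Schneider and Lang is proved in this
repository. Nothing is assumed about Mumford-Tate groups: it is not known that the Lie algebra of the
group of periods of an abelian surface with `End(A) = ℤ` is `sp(4)`; it could be the principal `sl(2)`.

**Theorem.** For every de Rham-Betti structure `U` of rank `d` there is a set `E U` of *exceptional*
abelian varieties such that

* (a) if `C` is isogenous to an abelian subvariety of `A_1 ^ 2 × ⋯ × A_n ^ 2` as above (that is, there are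
  homomorphisms `p i, q i : C → A i`, which are jointly injective on `H_1`) then all elements of
  `H^{2k}_Gr(C, ℚ(k))` are combinations of products of divisor classes (`AllClassesAreProducts`).
  Moreover let `V j` be finitely many structures, built from structures `U` for which the `A i` are not
  exceptional by subobjects, quotients, extensions, tensor products, duals and Tate twists
  (`Built`). Then every de Rham-Betti class in `H^n(C) ⊗ (⊕ V j) ^ {⊗ n'} (w)` is a sum of products `ψ ⊗ χ`,
  where `ψ` is a product of `n / 2` divisor classes on `C` and `χ` is a de Rham-Betti class in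
  `(⊕ V j) ^ {⊗ n'} (w - n / 2)`; it is zero if `n` is odd (`ClassesSplit`);
* (b) the same is true if `IsDouble C` and if the `V j` are built from structures `U` for which `C` is not
  exceptional;
* (c) there are no exceptional varieties as in (a) or (b) if `U` is of CM type;
* (d) a variety `A` of type four is not exceptional for `H^1(A')`, where `A'` is of type four, if there
  are no homomorphisms between `A` and `A'`;
* (e) if `A i` are `N` exceptional abelian varieties of type four, without homomorphisms between
  different `A i`, then `3 N ≤ d ^ 2`.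

So, for example, **`GPC ^ k (Z)` for all `k` implies `GPC ^ k (A × A × Z)` for all `k`**, for all abelian
surfaces `A` with `End(A) = ℤ` outside of finitely many isogeny classes, which depend on the smooth
projective variety `Z`; and for all such `A`, and all abelian fourfolds with quaternionic
multiplication, if the cohomology of `Z` is of CM type (for example `Z` a power of one elliptic curve
with complex multiplication, a product of Fermat hypersurfaces, or cellular).

## What is new

The files `HalfRealMult` and `SurfacesSplitOff` treat the same atoms with multiplicity one: there all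
endomorphisms are symmetric, which excludes `A × A` and quaternionic multiplication. (Statements (c),
(d), (e) for varieties of type four are from `SurfacesSplitOff`; they are repeated since they describe
`E`. The new results are (a) and (b).) For atoms of dimension two (powers of elliptic curves, and
abelian varieties with real multiplication by a field of degree equal to the dimension and their
powers) the theorem is known with all multiplicities (`MaximalRealMult`), since there the Lie algebra
on each atom is `sl(2)`. For atoms of dimension four the Lie algebra `𝔥` on an atom `W` could be the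
principal `sl(2)` in `sp(4)`, or `sp(4)`, and we have to show that all `𝔥`-invariants which occur on `C`
are invariants of `sp(4)`. This is true for the multiplicity two, and the method cannot give more: for
the multiplicity three (for example `A × A × A`) the principal `sl(2)` has an invariant which is not
a polynomial in the invariants of degree two, namely the cubic invariant of binary quartics on
the space `S_0 ⊂ Λ ^ 2 W` of dimension five.

## Proof

Let `V = H_1(C, ℂ)`, and `𝔥` the Lie algebra of the periods. By the theorem of Schneider and Lang the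
commutant of `𝔥` is `End(C) ⊗ ℂ`. So the eigenspaces of `P` are irreducible, of dimension four. We show
that there are equivariant frames of the eigenspaces, such that isomorphic eigenspaces have the same
matrices (the isomorphisms can be made symplectic), and that `𝔥` is the product of its images in the
endomorphisms of the isomorphism classes: a minimal ideal acts on one isomorphism class only. To see
this we apply the theorem about the Casimir operator from `HalfRealMult` to the sum of one
representative of each class, where the multiplicities are one. Let `φ` be an `𝔥`-invariant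
alternating form of positive degree whose contractions with all invariant bivectors vanish. We
evaluate `φ` on vectors in the eigenspaces, and fix the isomorphism class `W` of the first variable,
and the two eigenspaces of this class. At most two variables are in the same eigenspace, since an
alternating form in three variables on a space of dimension four whose contraction with the
symplectic form is zero vanishes. So we have to show that there are no nonzero invariants in the
traceless tensors in at most four variables in `W`, which are alternating in two pairs of variables.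
This follows from the irreducibility of `W` and of the space `S_0` of the traceless symmetric
endomorphisms of `W` (the latter is proved by Clifford algebras, see `HalfRealMult`). For four
variables the tensor is an equivariant endomorphism of `S_0`, so it is a scalar by the lemma of
Schur, and it is zero since its contraction with the symplectic form vanishes. Hence all invariant forms are combinations of products of invariant
forms of degree two, by a duality argument. The results about the other structures `V j` follow by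
the methods of `SurfacesSplitOff`. For subvarieties of products we use that the Lie algebra acts
semisimply.
-/

open Module Pool.Agent.Y102 Pool.Agent.W516.DR Pool.Agent.H204R3.GP

noncomputable section

namespace Pool.Agent.Results.MP_bf54cf_ag.MultiplicityTwo

/-- The period `(2 π i) ^ w` of the Tate twist. -/
def twist (w : ℤ) : ℂ := (2 * Real.pi * Complex.I) ^ w

section Ab

variable {g g' : ℕ}

/-- Homomorphisms of abelian varieties (up to isogeny), in terms of their action on the rational
homology: linear maps which respect the Hodge structures and the de Rham structures. -/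
def IsHom (A : AbVar g) (A' : AbVar g') (f : A.H1 →ₗ[ℚ] A'.H1) : Prop :=
  (∃ Q : (Fin g → ℂ) →ₗ[ℂ] (Fin g' → ℂ), ∀ w, A'.per (f w) = Q (A.per w)) ∧
    ∃ a : Fin g' ⊕ Fin g' → Fin g ⊕ Fin g → QBar, ∀ p w,
      A'.dR p (f w) = ∑ q, algebraMap QBar ℂ (a p q) * A.dR q w

/-- There are no nonzero homomorphisms from `A` to `A'`. -/
def NoHom (A : AbVar g) (A' : AbVar g') : Prop := ∀ f : A.H1 →ₗ[ℚ] A'.H1, IsHom A A' f → f = 0

theorem isHom_iff {A : AbVar g} {A' : AbVar g'} {f : A.H1 →ₗ[ℚ] A'.H1} :
    IsHom A A' f ↔ V5helper88.ID.IsHm A A' f :=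
  ⟨fun h => h.2, fun h => ⟨A.hodge_hom A' h, h⟩⟩

theorem isEnd_iff {A : AbVar g} {P : Module.End ℚ A.H1} : IsHom A A P ↔ P ∈ A.EA :=
  isHom_iff.trans V5helper88.ID.isHm_end

/-- The algebra `End(A) ⊗ ℚ` of the endomorphisms, as a vector space. -/
def endos (A : AbVar g) : Submodule ℚ (Module.End ℚ A.H1) where
  carrier := {P | IsHom A A P}
  zero_mem' := isEnd_iff.2 (Submodule.zero_mem _)
  add_mem' := fun {_ _} h h' => isEnd_iff.2 (Submodule.add_mem _ (isEnd_iff.1 h) (isEnd_iff.1 h'))
  smul_mem' := fun c _ h => isEnd_iff.2 (Submodule.smul_mem _ c (isEnd_iff.1 h))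

theorem endos_eq (A : AbVar g) : endos A = A.EA := by
  ext P
  exact isEnd_iff

/-- All endomorphisms are symmetric for the Riemann form of the polarization. -/
def AllSymmetric (A : AbVar g) : Prop := ∀ P, IsHom A A P → ∀ u v, A.om (P u) v = A.om u (P v)

/-- `A` is of type four: all endomorphisms are symmetric, the dimension of `End(A) ⊗ ℚ` is `g / 2`, and
the characteristic polynomial of some endomorphism has no complex root of multiplicity larger
than four. (So `A` is isogenous to a product of pairwise non-isogenous simple abelian varieties `C`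
such that `End(C) ⊗ ℚ` is a totally real field of degree `dim(C) / 2`.) -/
structure IsTypeFour (A : AbVar g) : Prop where
  symmetric : AllSymmetric A
  dimension : 4 * finrank ℚ (endos A) = 2 * g
  roots : ∃ P, IsHom A A P ∧ ∀ z : ℂ, (P.charpoly.map (algebraMap ℚ ℂ)).rootMultiplicity z ≤ 4

/-- `a` is an element of the centre of `End(A) ⊗ ℚ`. -/
def IsCentral (A : AbVar g) (a : Module.End ℚ A.H1) : Prop :=
  IsHom A A a ∧ ∀ Q, IsHom A A Q → ∀ u, a (Q u) = Q (a u)

/-- `P` is symmetric for the Riemann form. -/
def IsSymmetric (A : AbVar g) (P : Module.End ℚ A.H1) : Prop := ∀ u v, A.om (P u) v = A.om u (P v)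

/-- Every endomorphism which commutes with `P` is a polynomial in `P`. -/
def GeneratesCommutant (A : AbVar g) (P : Module.End ℚ A.H1) : Prop :=
  ∀ Q, IsHom A A Q → (∀ u, Q (P u) = P (Q u)) → Q ∈ Algebra.adjoin ℚ {P}

/-- All complex roots of the characteristic polynomial of `P` are of multiplicity four. -/
def RootsFour (A : AbVar g) (P : Module.End ℚ A.H1) : Prop :=
  ∀ z : ℂ, (P.charpoly.map (algebraMap ℚ ℂ)).IsRoot z →
    (P.charpoly.map (algebraMap ℚ ℂ)).rootMultiplicity z = 4

/-- `P` satisfies a quadratic equation over the centre of `End(A) ⊗ ℚ`. -/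
def QuadraticOverCentre (A : AbVar g) (P : Module.End ℚ A.H1) : Prop :=
  ∃ a b, IsCentral A a ∧ IsCentral A b ∧ ∀ u, P (P u) = a (P u) + b u

/-- There is a symmetric endomorphism `P` of `A`, such that every endomorphism which commutes with `P`
is a polynomial in `P`, all complex roots of the characteristic polynomial of `P` on `H_1(A, ℚ)` are
of multiplicity four, and `P` satisfies a quadratic equation over the centre of `End(A) ⊗ ℚ`.
(These are the abelian varieties which are isogenous to products of powers `C ^ r` of pairwise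
non-isogenous simple abelian varieties `C`, such that `r ≤ 2` and `End(C) ⊗ ℚ` is a totally real field
of degree `dim(C) / 2`, or `r = 1` and `End(C) ⊗ ℚ` is a totally indefinite quaternion algebra over a
totally real field of degree `dim(C) / 4`.) -/
def IsDouble (A : AbVar g) : Prop :=
  ∃ P, IsHom A A P ∧ IsSymmetric A P ∧ GeneratesCommutant A P ∧ RootsFour A P ∧
    QuadraticOverCentre A P

/-- The bilinear forms on `H_1(A, ℚ)`. -/
abbrev Bilinear (A : AbVar g) : Type := A.H1 →ₗ[ℚ] A.H1 →ₗ[ℚ] ℚ

/-- The alternating bilinear form `b` is a Hodge class in `H^2(A) (1)`, that is (Lefschetz), a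
rational multiple of the class of a divisor. -/
def IsDivisorClass (A : AbVar g) (b : Bilinear A) : Prop :=
  IsHodgeBilinear (A.per : A.H1 →+ (Fin g → ℂ)) b ∧ ∀ u, b u u = 0

/-- The alternating form `ψ` is the product of the classes `b i` of degree two. -/
def IsProduct (A : AbVar g) {k : ℕ} (b : Fin k → Bilinear A)
    (ψ : A.H1 [⋀^Fin k × Fin 2]→ₗ[ℚ] ℚ) : Prop :=
  ∀ v, ψ v = ∑ σ : Equiv.Perm (Fin k × Fin 2), ((Equiv.Perm.sign σ : ℤ) : ℚ) *
    ∏ i, b i (v (σ (i, 0))) (v (σ (i, 1)))

/-- `ψ` is a linear combination of products of divisor classes. -/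
def IsSumOfProducts (A : AbVar g) {k : ℕ} (ψ : A.H1 [⋀^Fin k × Fin 2]→ₗ[ℚ] ℚ) : Prop :=
  ψ ∈ Submodule.span ℚ {ψ | ∃ b : Fin k → Bilinear A, (∀ i, IsDivisorClass A (b i)) ∧
    IsProduct A b ψ}

theorem IsTypeFour.sy {A : AbVar g} (h : IsTypeFour A) : V5helper88.ID.Sy A :=
  fun P hP => h.symmetric P (isEnd_iff.2 hP)

theorem IsTypeFour.ad {A : AbVar g} (h : IsTypeFour A) : V5helper88.ID.AD A 4 := by
  obtain ⟨P, hP, hr⟩ := h.roots
  refine V5helper88.ID.ad_of_count h.sy (isEnd_iff.1 hP) hr ?_
  rw [← endos_eq]
  exact h.dimension.le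

theorem IsTypeFour.t4 {A : AbVar g} (h : IsTypeFour A) : ∃ P, V5helper88.KK.T4 A P := by
  obtain ⟨P, hP, hr⟩ := h.roots
  refine ⟨P, V5helper88.KK.t4_of_count h.sy (isEnd_iff.1 hP) hr ?_⟩
  rw [← endos_eq]
  exact h.dimension.le

theorem IsDouble.dbl {A : AbVar g} (h : IsDouble A) : ∃ P, V5helper88.KK.Dbl A P := by
  obtain ⟨P, hP, hs, hg, h4, a, b, ha, hb, hq⟩ := h
  refine ⟨P, ⟨isEnd_iff.1 hP, hs⟩, fun Q hQ hc => ?_, h4, a, isEnd_iff.1 ha.1, b,
    isEnd_iff.1 hb.1, fun Q hQ => LinearMap.ext fun u => ha.2 Q (isEnd_iff.2 hQ) u,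
    fun Q hQ => LinearMap.ext fun u => hb.2 Q (isEnd_iff.2 hQ) u, LinearMap.ext fun u => hq u⟩
  have h1 := hg Q (isEnd_iff.2 hQ) fun u => LinearMap.congr_fun hc u
  rw [Algebra.adjoin_singleton_eq_range_aeval] at h1
  obtain ⟨f, hf⟩ := h1
  exact ⟨f, hf.symm⟩

theorem divisor_of {A : AbVar g} {P : Module.End ℚ A.H1} (hP : P ∈ A.EA)
    (hs : ∀ u v, A.om (P u) v = A.om u (P v)) : IsDivisorClass A (V5helper88.HR.omP P) := by
  refine ⟨?_, fun u => ?_⟩
  · obtain ⟨P', hP'⟩ := A.endAlg.hodge P hP
    refine ⟨A.E.comp (P'.restrictScalars ℝ), fun x y => ?_, fun z hz u v => ?_⟩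
    · have h1 : P' (A.per x) = A.per (P x) := hP' x
      rw [LinearMap.comp_apply, LinearMap.restrictScalars_apply]
      change A.E (P' (A.per x)) (A.per y) = _
      rw [h1, ← AbVar.om_coe, V5helper88.HR.omP_apply, hs]
    · rw [LinearMap.comp_apply, LinearMap.comp_apply, LinearMap.restrictScalars_apply,
        LinearMap.restrictScalars_apply, P'.map_smul, A.E_unit z hz]
  · rw [V5helper88.HR.omP_apply]
    have h1 := hs u u
    rw [A.om_anti] at h1
    linarith

end Ab

/-- A de Rham-Betti structure of rank `d` over `ℚ̄`: the Betti side is the dual of `ℚ ^ d`, and the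
de Rham side is given by a basis, whose elements are considered as linear functions on `ℚ ^ d` with
complex values (the periods are the values on the rational vectors); the independence means that the
comparison is an isomorphism. -/
structure Structure (d : ℕ) where
  /-- the basis of the de Rham side -/
  dR : Fin d → ((Fin d → ℚ) →ₗ[ℚ] ℂ)
  indep : LinearIndependent ℂ dR

section Structures

variable {d d' d'' : ℕ}

/-- `f` is (the transpose of) a homomorphism of de Rham-Betti structures from `V` to `V'`. -/
def IsMap (V' : Structure d') (V : Structure d) (f : (Fin d' → ℚ) →ₗ[ℚ] (Fin d → ℚ)) : Prop :=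
  ∃ a : Fin d → Fin d' → QBar, ∀ i u, V.dR i (f u) = ∑ j, algebraMap QBar ℂ (a i j) * V'.dR j u

/-- `b` is a de Rham-Betti class in `V' ⊗ V (w)`. -/
def IsPairing (V' : Structure d') (V : Structure d) (w : ℤ)
    (b : (Fin d' → ℚ) →ₗ[ℚ] (Fin d → ℚ) →ₗ[ℚ] ℚ) : Prop :=
  ∃ a : Fin d' → Fin d → QBar, ∀ u v,
    twist w * (b u v : ℂ) = ∑ i, ∑ j, algebraMap QBar ℂ (a i j) * (V'.dR i u * V.dR j v)

/-- `β` is (the transpose of) a homomorphism from `V` to `V' ⊗ V'' (w)`. -/
def IsBilinear (V' : Structure d') (V'' : Structure d'') (V : Structure d) (w : ℤ)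
    (β : (Fin d' → ℚ) →ₗ[ℚ] (Fin d'' → ℚ) →ₗ[ℚ] (Fin d → ℚ)) : Prop :=
  ∃ a : Fin d → Fin d' → Fin d'' → QBar, ∀ i u v, twist w * V.dR i (β u v) =
    ∑ j, ∑ k, algebraMap QBar ℂ (a i j k) * (V'.dR j u * V''.dR k v)

/-- `X` commutes with all de Rham-Betti endomorphisms. -/
def InCommutant (V : Structure d) (X : Module.End ℚ (Fin d → ℚ)) : Prop :=
  ∀ P, IsDeRhamBettiEnd QBar V.dR P → ∀ u, X (P u) = P (X u)

/-- The structure `V` is of CM type: all endomorphisms of the vector space which commute with the
de Rham-Betti endomorphisms commute with each other. -/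
def IsCM (V : Structure d) : Prop :=
  ∀ X Y, InCommutant V X → InCommutant V Y → ∀ u, X (Y u) = Y (X u)

/-- `V` is (isomorphic to) `H^1(A)`. -/
def IsH1 {g : ℕ} (V : Structure d) (A : AbVar g) : Prop :=
  ∃ θ : (Fin d → ℚ) ≃ₗ[ℚ] A.H1, ∃ a : Fin d → Fin g ⊕ Fin g → QBar, ∀ i u,
    V.dR i u = ∑ j, algebraMap QBar ℂ (a i j) * A.dR j (θ u)

/-- The smallest class of de Rham-Betti structures which contains the structures with the property `P`
and is closed under subobjects, quotients and extensions (`middle`: `V'' → V → V'` is exact in the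
middle), tensor products and Tate twists (`tensor`: `V` is a subobject of `V' ⊗ V'' (w)`) and duals. -/
inductive Built (P : ∀ d : ℕ, Structure d → Prop) : ∀ {d : ℕ}, Structure d → Prop
  | base {d : ℕ} {V : Structure d} (h : P d V) : Built P V
  | middle {d d' d'' : ℕ} {V' : Structure d'} {V : Structure d} {V'' : Structure d''}
      (f : (Fin d' → ℚ) →ₗ[ℚ] (Fin d → ℚ)) (p : (Fin d → ℚ) →ₗ[ℚ] (Fin d'' → ℚ))
      (hf : IsMap V' V f) (hp : IsMap V V'' p) (hex : ∀ u, p u = 0 → ∃ u', f u' = u)
      (h' : Built P V') (h'' : Built P V'') : Built P V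
  | tensor {d d' d'' : ℕ} {V' : Structure d'} {V'' : Structure d''} {V : Structure d} (w : ℤ)
      (β : (Fin d' → ℚ) →ₗ[ℚ] (Fin d'' → ℚ) →ₗ[ℚ] (Fin d → ℚ)) (hβ : IsBilinear V' V'' V w β)
      (hs : Submodule.span ℚ {x | ∃ u v, β u v = x} = ⊤)
      (h' : Built P V') (h'' : Built P V'') : Built P V
  | dual {d d' : ℕ} {V' : Structure d'} {V : Structure d} (w : ℤ)
      (b : (Fin d' → ℚ) →ₗ[ℚ] (Fin d → ℚ) →ₗ[ℚ] ℚ) (hb : IsPairing V' V w b)
      (hn : ∀ v, (∀ u, b u v = 0) → v = 0) (h' : Built P V') : Built P V

/-- The structure as a member of the family of all structures. -/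
def toU (V : Structure d) : Pool.Agent.N192.GP.UU := ⟨d, ⟨V.dR, V.indep⟩⟩

/-- The structures from which a perfect Lie algebra splits off form a class which is closed under the
constructions. -/
theorem Built.sep {s : Pool.Agent.N192.GP.UU} {P : ∀ d : ℕ, Structure d → Prop}
    (hperf : Pool.Agent.N192.GP.ggU s ≤
      Pool.Agent.N192.GP.brk (Pool.Agent.N192.GP.ggU s) (Pool.Agent.N192.GP.ggU s))
    (hP : ∀ (d : ℕ) (U : Structure d), P d U → Pool.Agent.N192.GP.SepU s (toU U))
    {V : Structure d} (h : Built P V) : Pool.Agent.N192.GP.SepU s (toU V) := by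
  induction h with
  | base h => exact hP _ _ h
  | @middle _ _ _ V₁ V V₂ f p hf hp hex _ _ ih' ih'' =>
    exact Pool.Agent.N192.GP.sepU_middle (V' := toU V₁) (V := toU V) (V'' := toU V₂)
      hperf hf hp hex ih' ih''
  | @tensor _ _ _ V₁ V₂ V w β hβ hs' _ _ ih' ih'' =>
    exact Pool.Agent.N192.GP.sepU_tensor (V' := toU V₁) (V'' := toU V₂) (V := toU V)
      hperf hβ hs' ih' ih''
  | @dual _ _ V₁ V w b hb hn _ ih' =>
    exact Pool.Agent.N192.GP.sepU_dual (V' := toU V₁) (V := toU V) hperf hb hn ih'

end Structures

section Classes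

variable {g : ℕ} (B : AbVar g) {J : Type} [Fintype J] [DecidableEq J] {d : J → ℕ}
  (V : ∀ j, Structure (d j))

/-- The dual of the Betti side of the sum of the `V j`. -/
abbrev HV (_ : ∀ j, Structure (d j)) : Type := ∀ j, Fin (d j) → ℚ

/-- The basis of the de Rham side of the sum of the `V j`. -/
def dRV (p : Σ j, Fin (d j)) : HV V →ₗ[ℚ] ℂ := ((V p.1).dR p.2).comp (LinearMap.proj p.1)

/-- De Rham-Betti classes in `(⊕ V j) ^ {⊗ n'} (w)`. -/
def IsDRB {n' : ℕ} (w : ℤ) (χ : MultilinearMap ℚ (fun _ : Fin n' => HV V) ℚ) : Prop :=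
  ∃ a : (Fin n' → Σ j, Fin (d j)) → QBar, ∀ v, twist w * (χ v : ℂ) =
    ∑ J, algebraMap QBar ℂ (a J) * ∏ l, dRV V (J l) (v l)

/-- `H^n(B, ℚ) ⊗ (⊕ V j) ^ {⊗ n'}`: the forms in `n` variables in the homology of `B`, indexed by the set
`κ` of `n` elements, and in `n'` variables in the dual of `⊕ V j`, which are alternating in the
variables in the homology of `B`. -/
abbrev Mixed (κ : Type) (n' : ℕ) : Type :=
  B.H1 [⋀^κ]→ₗ[ℚ] (MultilinearMap ℚ (fun _ : Fin n' => HV V) ℚ)

/-- De Rham-Betti classes in `H^n(B) ⊗ (⊕ V j) ^ {⊗ n'} (w)`. -/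
def IsDRBMixed {κ : Type} [Fintype κ] [DecidableEq κ] {n' : ℕ} (w : ℤ) (φ : Mixed B V κ n') :
    Prop :=
  ∃ a : (κ → Fin g ⊕ Fin g) → (Fin n' → Σ j, Fin (d j)) → QBar,
    ∀ u v, twist w * (φ u v : ℂ) = ∑ J, ∑ J', algebraMap QBar ℂ (a J J') *
      ((∏ l, B.dR (J l) (u l)) * ∏ l, dRV V (J' l) (v l))

/-- `φ` is a sum of products of linear combinations of products of `k` divisor classes on `B` and of
de Rham-Betti classes in `(⊕ V j) ^ {⊗ n'} (w - k)`. -/
def Splits {k n' : ℕ} (w : ℤ) (φ : Mixed B V (Fin k × Fin 2) n') : Prop :=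
  ∃ (N : ℕ) (ψ : Fin N → B.H1 [⋀^Fin k × Fin 2]→ₗ[ℚ] ℚ)
    (χ : Fin N → MultilinearMap ℚ (fun _ : Fin n' => HV V) ℚ),
    (∀ l, IsSumOfProducts B (ψ l) ∧ IsDRB V (w - k) (χ l)) ∧ ∀ u v, φ u v = ∑ l, ψ l u * χ l v

/-- All de Rham-Betti classes in `H^n(B) ⊗ (⊕ V j) ^ {⊗ n'} (w)` are such sums if `n` is even, and they
are zero if `n` is odd. -/
def ClassesSplit : Prop :=
  ∀ (n' : ℕ) (w : ℤ), (∀ (k : ℕ) (φ : Mixed B V (Fin k × Fin 2) n'), IsDRBMixed B V w φ →
    Splits B V w φ) ∧
    ∀ (n : ℕ) (φ : Mixed B V (Fin n) n'), Odd n → IsDRBMixed B V w φ → φ = 0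

variable {B V}

theorem sum_of_QS {k : ℕ} {ψ : B.H1 [⋀^Fin k × Fin 2]→ₗ[ℚ] ℚ} (h : ψ ∈ V5helper88.KK.QS B k) :
    IsSumOfProducts B ψ := by
  unfold V5helper88.KK.QS at h
  refine Submodule.span_mono ?_ h
  rintro _ ⟨P, hP, rfl⟩
  refine ⟨_, fun i => divisor_of (hP i).1 (hP i).2, fun v => ?_⟩
  rw [V5helper88.HR.prd_apply]
  rfl

theorem classesSplit (hG : V5helper88.KK.Good B)
    (hV : ∀ j, Pool.Agent.N192.GP.SepU (V5helper88.ID.sA B) (toU (V j))) : ClassesSplit B V := by
  let V' : ∀ j, Pool.Agent.N192.GP.DRS (d j) := fun j => ⟨(V j).dR, (V j).indep⟩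
  intro n' w
  refine ⟨fun k φ hφ => ?_, fun n φ hn hφ => ?_⟩
  · obtain ⟨N, ψ, χ, h1, h2⟩ := V5helper88.KK.Good.even_split (V := V') hG hV hφ
    exact ⟨N, ψ, χ, fun l => ⟨sum_of_QS (h1 l).1, (h1 l).2⟩, h2⟩
  · exact V5helper88.KK.Good.odd_zero (V := V') hG hV hφ (by rwa [Fintype.card_fin])

end Classes

/-- The structures `H^1(A)` split off if the abelian varieties are independent. -/
theorem sep_H1 {s : Pool.Agent.N192.GP.UU} {d g : ℕ} {U : Structure d} {A : AbVar g}
    (hperf : Pool.Agent.N192.GP.ggU s ≤
      Pool.Agent.N192.GP.brk (Pool.Agent.N192.GP.ggU s) (Pool.Agent.N192.GP.ggU s))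
    (hU : IsH1 U A) (h : Pool.Agent.N192.GP.SepU s (V5helper88.ID.sA A)) :
    Pool.Agent.N192.GP.SepU s (toU U) := by
  obtain ⟨θ, a, ha⟩ := hU
  refine Pool.Agent.N192.GP.sepU_middle (V' := V5helper88.ID.sA A) (V := toU U)
    (V'' := V5helper88.ID.sA A) (f := θ.symm.toLinearMap) (p := 0) hperf ?_ ?_ ?_ h h
  · refine ⟨fun i j => a i ((Pool.Agent.N192.GP.eqv g).symm j), fun i u => ?_⟩
    have h1 : U.dR i (θ.symm u) = ∑ j, algebraMap QBar ℂ (a i j) * A.dR j u := by
      have h2 := ha i (θ.symm u)
      rw [LinearEquiv.apply_symm_apply] at h2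
      exact h2
    refine h1.trans ?_
    refine Eq.trans ?_ ((Pool.Agent.N192.GP.eqv g).sum_comp (fun j => algebraMap QBar ℂ
      (a i ((Pool.Agent.N192.GP.eqv g).symm j)) * (V5helper88.ID.sA A).2.eta j u))
    refine Finset.sum_congr rfl fun j _ => ?_
    rw [Equiv.symm_apply_apply]
    congr 1
    exact (V5helper88.ID.sA_eta A j u).symm
  · refine ⟨fun _ _ => 0, fun i u => ?_⟩
    rw [LinearMap.zero_apply, map_zero]
    refine (Finset.sum_eq_zero fun j _ => ?_).symm
    rw [map_zero, zero_mul]
  · exact fun u _ => ⟨θ u, θ.symm_apply_apply u⟩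

/-- `φ` is an element of `H^{2k}_Gr(A, ℚ(k))`. -/
def IsGr {g : ℕ} (A : AbVar g) {k : ℕ} (φ : A.H1 [⋀^Fin k × Fin 2]→ₗ[ℚ] ℚ) : Prop :=
  IsDeRhamBettiForm QBar A.dR (2 * Real.pi * Complex.I) k φ.toMultilinearMap

/-- For all `k`, all elements of `H^{2k}_Gr(A, ℚ(k))` are linear combinations of products of divisor
classes. -/
def AllClassesAreProducts {g : ℕ} (A : AbVar g) : Prop :=
  ∀ (k : ℕ) (φ : A.H1 [⋀^Fin k × Fin 2]→ₗ[ℚ] ℚ), IsGr A φ → IsSumOfProducts A φ

theorem products_of_good {g : ℕ} {A : AbVar g} (hG : V5helper88.KK.Good A) :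
    AllClassesAreProducts A := fun _ _ hφ => sum_of_QS (hG.classes hφ)

/-- Relations between structures and abelian varieties. -/
abbrev Relation : Type := ∀ d : ℕ, Structure d → ∀ g : ℕ, AbVar g → Prop

/-- The `A i` are of type four, and there are no nonzero homomorphisms from `A i` to `A j` for
`i ≠ j`. -/
def IsFamily {I : Type} {g : I → ℕ} (A : ∀ i, AbVar (g i)) : Prop :=
  (∀ i, IsTypeFour (A i)) ∧ ∀ i j, i ≠ j → NoHom (A i) (A j)

/-- `C` is isogenous to an abelian subvariety of the product of the squares of the `A i`: there are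
two homomorphisms from `C` to every `A i`, and they are jointly injective on the homology. -/
def InSquares {I : Type} {g : I → ℕ} (A : ∀ i, AbVar (g i)) {h : ℕ} (C : AbVar h) : Prop :=
  ∃ p q : ∀ i, C.H1 →ₗ[ℚ] (A i).H1, (∀ i, IsHom C (A i) (p i)) ∧ (∀ i, IsHom C (A i) (q i)) ∧
    ∀ u, (∀ i, p i u = 0 ∧ q i u = 0) → u = 0

/-- (a) The classes on subvarieties of products of squares. -/
def SquaresSplit (E : Relation) : Prop :=
  ∀ {I : Type} [Fintype I] {g : I → ℕ} (A : ∀ i, AbVar (g i)), IsFamily A →
    ∀ {h : ℕ} (C : AbVar h), InSquares A C → AllClassesAreProducts C ∧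
      ∀ {J : Type} [Fintype J] [DecidableEq J] {d : J → ℕ} (V : ∀ j, Structure (d j)),
        (∀ i j, Built (fun d U => ¬E d U (g i) (A i)) (V j)) → ClassesSplit C V

/-- (b) The classes on varieties which satisfy `IsDouble`. -/
def DoublesSplit (E : Relation) : Prop :=
  ∀ {h : ℕ} (C : AbVar h), IsDouble C → AllClassesAreProducts C ∧
    ∀ {J : Type} [Fintype J] [DecidableEq J] {d : J → ℕ} (V : ∀ j, Structure (d j)),
      (∀ j, Built (fun d U => ¬E d U h C) (V j)) → ClassesSplit C V

/-- (c) There are no exceptional varieties for structures of CM type. -/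
def NoneIfCM (E : Relation) : Prop :=
  ∀ {d g : ℕ} (U : Structure d) (B : AbVar g), IsTypeFour B ∨ IsDouble B → IsCM U → ¬E d U g B

/-- (d) Varieties of type four without homomorphisms are not exceptional. -/
def NoneIfNoHom (E : Relation) : Prop :=
  ∀ {d g h : ℕ} (U : Structure d) (B : AbVar g) (C : AbVar h), IsH1 U C → IsTypeFour B →
    IsTypeFour C → NoHom B C → NoHom C B → ¬E d U g B

/-- (e) The number of exceptional varieties of type four without homomorphisms. -/
def Few (E : Relation) : Prop :=
  ∀ {N : ℕ} {g : Fin N → ℕ} (A : ∀ i, AbVar (g i)), IsFamily A →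
    ∀ {d : ℕ} (U : Structure d), (∀ i, E d U (g i) (A i)) → 3 * N ≤ d ^ 2

/-- **Abelian varieties with atoms of dimension four and of multiplicity at most two.** -/
theorem result : ∃ E : Relation, SquaresSplit E ∧ DoublesSplit E ∧ NoneIfCM E ∧ NoneIfNoHom E ∧
    Few E := by
  have hind : ∀ {g g' : ℕ} (C : AbVar g) (C' : AbVar g'),
      IsTypeFour C → IsTypeFour C' → NoHom C C' → NoHom C' C →
      Pool.Agent.N192.GP.SepU (V5helper88.ID.sA C) (V5helper88.ID.sA C') :=
    fun C C' h h' h1 h2 => V5helper88.ID.sep_pair' (Or.inr rfl) h.ad h'.ad h.sy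
      (V5helper88.ID.sym_prod h.sy h'.sy (fun f hf => h1 f (isHom_iff.2 hf))
        fun f hf => h2 f (isHom_iff.2 hf))
  refine ⟨fun _ U _ B => ¬Pool.Agent.N192.GP.SepU (V5helper88.ID.sA B) (toU U),
    fun {I} _ {g} A ⟨hA, hom⟩ {h} C ⟨p, q, hp, hq, hinj⟩ => ?_, fun C hC => ?_,
    fun U B hB h h' => ?_, fun U B C hU hB hC h1 h2 h' => ?_, fun A ⟨hA, hom⟩ _ U hE => ?_⟩
  · have hG : V5helper88.KK.Good C := V5helper88.KK.good_squares (fun i => (hA i).t4)
      (fun i j hij f hf => hom i j hij f (isHom_iff.2 hf)) (fun i => isHom_iff.1 (hp i))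
      (fun i => isHom_iff.1 (hq i)) hinj
    refine ⟨products_of_good hG, fun V hV => classesSplit hG fun j => ?_⟩
    have hperf := fun i => (hA i).sy.perf
    refine V5helper88.ID.sep_joint (K := I × Bool) (e := Prod.fst)
      (p := fun a => if a.2 then p a.1 else q a.1) hperf (fun i j hij => hind _ _ (hA i) (hA j)
        (hom i j hij) (hom j i hij.symm)) (fun a => ?_) (fun u hu => hinj u fun i => ?_)
      fun a => (hV a.1 j).sep (hperf a.1) fun d U hU => not_not.1 hU
    · by_cases h : a.2
      · rw [if_pos h]
        exact isHom_iff.1 (hp a.1)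
      · rw [if_neg h]
        exact isHom_iff.1 (hq a.1)
    · have h1 := hu (i, true)
      have h2 := hu (i, false)
      exact ⟨h1, h2⟩
  · obtain ⟨P, hP⟩ := hC.dbl
    exact ⟨products_of_good hP.good, fun V hV => classesSplit hP.good fun j =>
      (hV j).sep hP.good.perf fun d U hU => not_not.1 hU⟩
  · have hperf : Pool.Agent.V5helper88.ID.gA B ≤
        Pool.Agent.N192.GP.brk (V5helper88.ID.gA B) (V5helper88.ID.gA B) := by
      rcases hB with hB | hB
      · exact hB.sy.perf
      · obtain ⟨P, hP⟩ := hB.dbl
        exact hP.good.perf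
    exact h' (V5helper88.ID.sepU_cm (V := toU U) hperf fun X Y hX hY =>
      LinearMap.ext (h X Y (fun P hP u => LinearMap.congr_fun (hX P hP) u)
        fun P hP u => LinearMap.congr_fun (hY P hP) u))
  · exact h' (sep_H1 hB.sy.perf hU (hind _ _ hB hC h1 h2))
  · have h1 := V5helper88.ID.exc_bound (V := toU U) (fun i => (hA i).sy.perf)
      (fun i j hij => hind _ _ (hA i) (hA j) (hom i j hij) (hom j i hij.symm))
      Finset.univ (fun i _ => hE i)
    rw [Finset.card_univ, Fintype.card_fin, ← pow_two] at h1
    exact h1

end Pool.Agent.Results.MP_bf54cf_ag.MultiplicityTwo
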