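import Pool.Agent.V5helper10.GK.All4

set_option autoImplicit false

/-!
# The period conjecture and the Hodge conjecture for the powers of K3 surfaces

Let `X` be a K3 surface over the field of algebraic numbers with `End T(X) = ℚ`, where `T(X)` is the
transcendental part of `H^2(X, ℚ)`, and let `r` be the rank of `T(X)`. Parts 1 and 2 have no further
hypothesis. The condition `ActsIrreducibly P` of parts 3 to 5 says that the Lie algebra of the de
Rham-Betti group of `T(X)` acts irreducibly on `T(X) ⊗ ℂ`; for K3 surfaces with `End T(X) = ℚ` this is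
a theorem (Wüstholz, André; Kreutz, Shen and Vial). As in the other files `pw X n` is the power
`X ^ (n + 1)`.
-/

open CategoryTheory AlgebraicGeometry

universe u

namespace Pool.Agent.Results.MP_bf54cf_ag.PowersOfK3Surfaces

open Pool.Agent.H914 Pool.Agent.H914.VarClass Pool.Agent.H914.VarClass.Obj
  Pool.Agent.H914.WeilCohomology Pool.Agent.Y121.AHS
open Pool.Agent.Y133.Half (pw)
open Pool.Agent.Y133.Per (DeRham IsDRB)
open Pool.Agent.V5helper10.GKU

variable {k : Type u} [Field k] {𝒱 : VarClass k} {ops : CycleOps 𝒱}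

theorem result (T : HodgeTheory ops) (D : DeRham T.W QA) (X : 𝒱.Obj) (hX : IsK3 T X)
    (hE : OnlyScalars (T.pq X) (Trans T X)) (r : ℕ) (e : Fin r → T.W.H X)
    (P : Matrix (Fin r) (Fin r) ℂ) (hP : IsPeriodMatrix (D.dR X) (Trans T X) e P) :
    -- 1. Hodge classes on the powers of `X` are de Rham-Betti classes
    (∀ n d c, IsHodge T (pw X n) d c → IsDRB D (pw X n) d c) ∧
    -- 2. the period conjecture for one pair `(n, d)` outside of the trivial range implies the Hodge
    -- conjecture for all powers
    (∀ n d, ¬(d < r ∨ 2 * (n + 1) < d + r) → PeriodAt D (pw X n) d →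
      ∀ n d, HodgeIn T (pw X n) d) ∧
    (r ≠ 5 →
      -- 3. all de Rham-Betti classes are Hodge classes if and only if the group acts irreducibly
      ((∀ n d c, IsDRB D (pw X n) d c → IsHodge T (pw X n) d c) ↔ ActsIrreducibly P) ∧
      -- 4. in this case the conjectures are equivalent, in each codimension, they hold in small and
      -- in large codimensions, and one other pair `(n, d)` decides all
      (ActsIrreducibly P → (∀ n d, PeriodAt D (pw X n) d ↔ HodgeIn T (pw X n) d) ∧
        (∀ n d, d < r ∨ 2 * (n + 1) < d + r → PeriodAt D (pw X n) d) ∧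
        ((∀ n d, PeriodAt D (pw X n) d) ∨
          ∀ n d, PeriodAt D (pw X n) d ↔ (d < r ∨ 2 * (n + 1) < d + r)) ∧
        -- 5. and they hold if an algebraic correspondence acts on one-forms
        ∀ Y, IsGood T Y → ∀ c ∈ algClasses T.W (X.prod Y) Y.dim, ActsOnForms T X Y c →
          ∀ n d, PeriodAt D (pw X n) d)) :=
  Pool.Agent.V5helper10.GK.gk4_final Pool.Agent.V5helper10.GK.g_HGT
    Pool.Agent.V5helper10.GK.g_RTD Pool.Agent.V5helper10.GK.g_ALG Pool.Agent.V5helper10.GK.g_IRS
    Pool.Agent.V5helper10.GK.g_CLS T D X hX hE r e P hP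

end Pool.Agent.Results.MP_bf54cf_ag.PowersOfK3Surfaces
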