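import Pool.Agent.V5helper88.ID.I11

set_option autoImplicit false

/-!
# The Grothendieck period conjecture for products of an arbitrary variety with abelian surfaces: almost
# all abelian surfaces split off from the periods of a given variety

An abelian variety `A` over the field `ℚ̄` of algebraic numbers is *of type `m`* (`m` is two or four) if
all endomorphisms of `A` are symmetric for the polarization, the dimension of `End(A) ⊗ ℚ` over `ℚ`
is `2 dim(A) / m`, and the characteristic polynomial on `H_1(A, ℚ)` of some endomorphism has no root of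
multiplicity larger than `m` (`IsOfType`). This means that `A` is isogenous to a product of pairwise
non-isogenous simple abelian varieties `C`, such that `End(C) ⊗ ℚ` is a totally real field of degree
`2 dim(C) / m`. For example:

* `m = 4`: abelian surfaces with `End = ℤ`, abelian fourfolds with real multiplication by a quadratic
  field, abelian varieties of dimension `2 e` with real multiplication by a field of degree `e`, and
  products of pairwise non-isogenous varieties of this kind;
* `m = 2`: elliptic curves without complex multiplication, abelian surfaces with real multiplication,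
  and so on.

Let `Z` be **any** variety over `ℚ̄` (open, singular, of any dimension), or more generally let `U` be
any de Rham-Betti structure over `ℚ̄` (`Structure`). Nothing is assumed about periods: `AbVar` is the
description of an abelian variety by theta functions (see `Pool/Agent/Y102/AVDefs.lean`), and the
theorem of Schneider and Lang is proved in this repository.

**Theorem.** For every de Rham-Betti structure `U` of rank `d` there is a set `E U` of *exceptional*
abelian varieties such that

* (a) there are no exceptional varieties with symmetric endomorphisms if `U` is of CM type (for example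
  if `d = 1`);
* (b) if `U = H^1(C)` for an abelian variety `C` of type `m`, then every exceptional abelian variety of
  type `m` has a nonzero homomorphism to or from `C`;
* (c) **if `A i` are `N` exceptional abelian varieties of type `m` without homomorphisms between `A i` and
  `A j` for `i ≠ j`, then `3 N ≤ d ^ 2`**;
* (d) let `B` be an abelian variety with symmetric endomorphisms, such that the characteristic
  polynomial on `H_1(B, ℚ)` of some endomorphism has no root of multiplicity larger than four (that is,
  `B` is isogenous to a product of pairwise non-isogenous varieties of type two and four), and let `V j`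
  be finitely many structures, built from structures `U` for which `B` is not exceptional by
  subobjects, quotients, extensions, tensor products, duals and Tate twists (`Built`). Then
  every de Rham-Betti class in `H^n(B) ⊗ (⊕ V j) ^ {⊗ n'} (w)` is a sum of products `ψ ⊗ χ`, where `ψ` is
  a **product of `n / 2` divisor classes** on `B` and `χ` is a de Rham-Betti class in
  `(⊕ V j) ^ {⊗ n'} (w - n / 2)`; it is zero if `n` is odd;
* (e) the same is true for every `B` with symmetric endomorphisms which is isogenous to a subvariety of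
  a product of varieties `A i` of type `m` as in (c) (that is, there are homomorphisms
  `p a : B → A (e a)`, which are jointly injective on `H_1`), if the `V j` are built from structures `U`
  for which the `A (e a)` are not exceptional.

So let `Z` be a smooth projective variety over `ℚ̄` with sum of the Betti numbers `b`. Then there are at
most `b ^ 2 / 3` isogeny classes of abelian surfaces with `End = ℤ` (exceptions), such that for all
products `B` of pairwise non-isogenous abelian surfaces with `End = ℤ` which are not exceptional, all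
elements of `H_Gr(B × Z)` are sums of products of divisor classes on `B` and of elements of
`H_Gr(Z)` (take `V = H^*(Z)` and `n' = 1`, and use the Künneth formula). So **`GPC ^ k (Z)` for all `k`
implies `GPC ^ k (B × Z)` for all `k`**. The exceptions are the same for all powers of `Z`, and for all
varieties whose cohomology is built from `H^*(Z)`. There are no exceptions if `Z` is a product of
powers of abelian surfaces with `End = ℤ` which are not isogenous to the factors of `B`. If the
cohomology of `Z` is of CM type, for example if `Z` is a product of Fermat hypersurfaces and of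
abelian varieties with complex multiplication, then this is true for all `B` as in (d). For example
`GPC ^ k (B × Z)` holds for all `k` if `B` is a product of pairwise non-isogenous abelian surfaces
with `End = ℤ` and elliptic curves without complex multiplication, and `Z` is a power of one elliptic
curve with complex multiplication, or any cellular variety.

The exceptional sets cannot be avoided in general (`Z` could be one of the surfaces), and with the
methods of transcendence theory which are available at present the exceptions which do not come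
from homomorphisms cannot be excluded either: if `End(C) = ℤ` for an abelian surface `C` then it is not
known that the Lie algebra of the group of periods is the whole `sp(4)`. It may be the principal
`sl(2)`, and this `sl(2)` may act on the periods of another variety.

## What is new

For elliptic curves without complex multiplication (the case `m = 2`, `dim(A i) = 1`) there is a
stronger theorem in the file `IndependenceOfPeriods` (with a linear bound, and with powers of the
curves). For abelian varieties of spin type (Kuga-Satake varieties of K3 surfaces) of rank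
`r ≠ 5` there is a similar theorem in the file `SplitOff`, at most one of the members having a rank `r ≤ 4`.
The type `m = 4` is the rank `r = 5`, which is excluded there, since one cannot show that the Lie
algebra is as large as possible, and which is the main case here. The type `m = 2` is the rank `r = 3`,
where only one member was allowed (for abelian varieties of dimension larger than one). The file
`HalfRealMult` treats `B` itself (there is no `Z`).

## Proof

Let `𝔩` be the Lie algebra over `ℚ` which is generated by the rational components of the logarithmic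
derivatives of the periods of all structures over `ℚ̄`. It acts on all structures, and by scalars on
de Rham-Betti classes. Let `𝔤(A)` be its image in `End(H_1(A, ℚ))`, normalized by the twist.
By the theorem of Schneider and Lang the commutant of `𝔤(A)` is `End(A) ⊗ ℚ`. If `A` is of type `m` then
`H_1(A, ℂ)` is the orthogonal sum of pairwise non-isomorphic symplectic irreducible
representations, the blocks, and a count of the projections shows that all of them are of
dimension `m`. A minimal ideal of `𝔤(A) ⊗ ℂ` acts nontrivially on one block only; this is proved by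
the Casimir operator on the tensor product of two blocks (see `HalfRealMult`). We apply this to the
product `A × A'` of two abelian varieties of type `m` without homomorphisms, whose endomorphisms are
symmetric, and see that `𝔤(A × A') = 𝔤(A) × 𝔤(A')`: the varieties are independent. By the
lemma of Ribet the `A i` in (c) are independent, as `𝔤(A i)` is perfect. We say that `A` is exceptional
for `U` if `𝔤(A)` does not split off from the action of `𝔩` on `U`. If the `A i` are exceptional then the
image of `𝔩` in `End(U)` is mapped onto the product of `N` nonzero perfect Lie algebras, quotients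
of the `𝔤(A i)`, whose dimensions are at least three; so `3 N ≤ d ^ 2`. If `𝔤(B)` splits off from the
action on the `V j` then the forms in the variables of `B` which occur in a de Rham-Betti class
are annihilated by `𝔤(B)`, and these are the combinations of products of divisor classes by the
methods of `HalfRealMult`.
-/

open Module Pool.Agent.Y102 Pool.Agent.W516.DR Pool.Agent.H204R3.GP

noncomputable section

namespace Pool.Agent.Results.MP_bf54cf_ag.SurfacesSplitOff

/-- The period `(2 π i) ^ w` of the Tate twist. -/
def twist (w : ℤ) : ℂ := (2 * Real.pi * Complex.I) ^ w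

section Ab

variable {g g' : ℕ}

/-- Homomorphisms of abelian varieties (up to isogeny), in terms of their action on the rational
homology: linear maps which respect the Hodge structures and the de Rham structures. -/
def IsHom (A : AbVar g) (A' : AbVar g') (f : A.H1 →ₗ[ℚ] A'.H1) : Prop :=
  (∃ Q : (Fin g → ℂ) →ₗ[ℂ] (Fin g' → ℂ), ∀ w, A'.per (f w) = Q (A.per w)) ∧
    ∃ a : Fin g' ⊕ Fin g' → Fin g ⊕ Fin g → QBar, ∀ p w,
      A'.dR p (f w) = ∑ q, algebraMap QBar ℂ (a p q) * A.dR q w

/-- There are no nonzero homomorphisms from `A` to `A'`. -/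
def NoHom (A : AbVar g) (A' : AbVar g') : Prop := ∀ f : A.H1 →ₗ[ℚ] A'.H1, IsHom A A' f → f = 0

theorem isHom_iff {A : AbVar g} {A' : AbVar g'} {f : A.H1 →ₗ[ℚ] A'.H1} :
    IsHom A A' f ↔ V5helper88.ID.IsHm A A' f :=
  ⟨fun h => h.2, fun h => ⟨A.hodge_hom A' h, h⟩⟩

theorem isEnd_iff {A : AbVar g} {P : Module.End ℚ A.H1} : IsHom A A P ↔ P ∈ A.EA :=
  isHom_iff.trans V5helper88.ID.isHm_end

/-- The algebra `End(A) ⊗ ℚ` of the endomorphisms, as a vector space. -/
def endos (A : AbVar g) : Submodule ℚ (Module.End ℚ A.H1) where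
  carrier := {P | IsHom A A P}
  zero_mem' := isEnd_iff.2 (Submodule.zero_mem _)
  add_mem' := fun {_ _} h h' => isEnd_iff.2 (Submodule.add_mem _ (isEnd_iff.1 h) (isEnd_iff.1 h'))
  smul_mem' := fun c _ h => isEnd_iff.2 (Submodule.smul_mem _ c (isEnd_iff.1 h))

theorem endos_eq (A : AbVar g) : endos A = A.EA := by
  ext P
  exact isEnd_iff

/-- All endomorphisms are symmetric for the Riemann form of the polarization. -/
def AllSymmetric (A : AbVar g) : Prop := ∀ P, IsHom A A P → ∀ u v, A.om (P u) v = A.om u (P v)

/-- `A` is of type `m`: all endomorphisms are symmetric, the dimension of `End(A) ⊗ ℚ` is `2 g / m`, and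
the characteristic polynomial of some endomorphism has no complex root of multiplicity larger
than `m`. (So `A` is isogenous to a product of pairwise non-isogenous simple abelian varieties `C` such
that `End(C) ⊗ ℚ` is a totally real field of degree `2 dim(C) / m`.) -/
structure IsOfType (A : AbVar g) (m : ℕ) : Prop where
  symmetric : AllSymmetric A
  dimension : m * finrank ℚ (endos A) = 2 * g
  roots : ∃ P, IsHom A A P ∧ ∀ z : ℂ, (P.charpoly.map (algebraMap ℚ ℂ)).rootMultiplicity z ≤ m

/-- The characteristic polynomial on `H_1(A, ℚ)` of some endomorphism has no complex root of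
multiplicity larger than four. -/
def SmallBlocks (A : AbVar g) : Prop :=
  ∃ P, IsHom A A P ∧ ∀ z : ℂ, (P.charpoly.map (algebraMap ℚ ℂ)).rootMultiplicity z ≤ 4

/-- The bilinear forms on `H_1(A, ℚ)`. -/
abbrev Bilinear (A : AbVar g) : Type := A.H1 →ₗ[ℚ] A.H1 →ₗ[ℚ] ℚ

/-- The alternating bilinear form `b` is a Hodge class in `H^2(A) (1)`, that is (Lefschetz), a
rational multiple of the class of a divisor. -/
def IsDivisorClass (A : AbVar g) (b : Bilinear A) : Prop :=
  IsHodgeBilinear (A.per : A.H1 →+ (Fin g → ℂ)) b ∧ ∀ u, b u u = 0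

/-- The alternating form `ψ` is the product of the classes `b i` of degree two. -/
def IsProduct (A : AbVar g) {k : ℕ} (b : Fin k → Bilinear A)
    (ψ : A.H1 [⋀^Fin k × Fin 2]→ₗ[ℚ] ℚ) : Prop :=
  ∀ v, ψ v = ∑ σ : Equiv.Perm (Fin k × Fin 2), ((Equiv.Perm.sign σ : ℤ) : ℚ) *
    ∏ i, b i (v (σ (i, 0))) (v (σ (i, 1)))

/-- `ψ` is a linear combination of products of divisor classes. -/
def IsSumOfProducts (A : AbVar g) {k : ℕ} (ψ : A.H1 [⋀^Fin k × Fin 2]→ₗ[ℚ] ℚ) : Prop :=
  ψ ∈ Submodule.span ℚ {ψ | ∃ b : Fin k → Bilinear A, (∀ i, IsDivisorClass A (b i)) ∧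
    IsProduct A b ψ}

theorem IsOfType.sy {A : AbVar g} {m : ℕ} (h : IsOfType A m) : V5helper88.ID.Sy A :=
  fun P hP => h.symmetric P (isEnd_iff.2 hP)

theorem IsOfType.ad {A : AbVar g} {m : ℕ} (h : IsOfType A m) : V5helper88.ID.AD A m := by
  obtain ⟨P, hP, hr⟩ := h.roots
  refine V5helper88.ID.ad_of_count h.sy (isEnd_iff.1 hP) hr ?_
  rw [← endos_eq]
  exact h.dimension.le

theorem divisor_of {A : AbVar g} {P : Module.End ℚ A.H1} (hP : P ∈ A.EA)
    (hs : ∀ u v, A.om (P u) v = A.om u (P v)) : IsDivisorClass A (V5helper88.HR.omP P) := by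
  refine ⟨?_, fun u => ?_⟩
  · obtain ⟨P', hP'⟩ := A.endAlg.hodge P hP
    refine ⟨A.E.comp (P'.restrictScalars ℝ), fun x y => ?_, fun z hz u v => ?_⟩
    · have h1 : P' (A.per x) = A.per (P x) := hP' x
      rw [LinearMap.comp_apply, LinearMap.restrictScalars_apply]
      change A.E (P' (A.per x)) (A.per y) = _
      rw [h1, ← AbVar.om_coe, V5helper88.HR.omP_apply, hs]
    · rw [LinearMap.comp_apply, LinearMap.comp_apply, LinearMap.restrictScalars_apply,
        LinearMap.restrictScalars_apply, P'.map_smul, A.E_unit z hz]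
  · rw [V5helper88.HR.omP_apply]
    have h1 := hs u u
    rw [A.om_anti] at h1
    linarith

end Ab

/-- A de Rham-Betti structure of rank `d` over `ℚ̄`: the Betti side is the dual of `ℚ ^ d`, and the
de Rham side is given by a basis, whose elements are considered as linear functions on `ℚ ^ d` with
complex values (the periods are the values on the rational vectors); the independence means that the
comparison is an isomorphism. -/
structure Structure (d : ℕ) where
  /-- the basis of the de Rham side -/
  dR : Fin d → ((Fin d → ℚ) →ₗ[ℚ] ℂ)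
  indep : LinearIndependent ℂ dR

section Structures

variable {d d' d'' : ℕ}

/-- `f` is (the transpose of) a homomorphism of de Rham-Betti structures from `V` to `V'`. -/
def IsMap (V' : Structure d') (V : Structure d) (f : (Fin d' → ℚ) →ₗ[ℚ] (Fin d → ℚ)) : Prop :=
  ∃ a : Fin d → Fin d' → QBar, ∀ i u, V.dR i (f u) = ∑ j, algebraMap QBar ℂ (a i j) * V'.dR j u

/-- `b` is a de Rham-Betti class in `V' ⊗ V (w)`. -/
def IsPairing (V' : Structure d') (V : Structure d) (w : ℤ)
    (b : (Fin d' → ℚ) →ₗ[ℚ] (Fin d → ℚ) →ₗ[ℚ] ℚ) : Prop :=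
  ∃ a : Fin d' → Fin d → QBar, ∀ u v,
    twist w * (b u v : ℂ) = ∑ i, ∑ j, algebraMap QBar ℂ (a i j) * (V'.dR i u * V.dR j v)

/-- `β` is (the transpose of) a homomorphism from `V` to `V' ⊗ V'' (w)`. -/
def IsBilinear (V' : Structure d') (V'' : Structure d'') (V : Structure d) (w : ℤ)
    (β : (Fin d' → ℚ) →ₗ[ℚ] (Fin d'' → ℚ) →ₗ[ℚ] (Fin d → ℚ)) : Prop :=
  ∃ a : Fin d → Fin d' → Fin d'' → QBar, ∀ i u v, twist w * V.dR i (β u v) =
    ∑ j, ∑ k, algebraMap QBar ℂ (a i j k) * (V'.dR j u * V''.dR k v)

/-- `X` commutes with all de Rham-Betti endomorphisms. -/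
def InCommutant (V : Structure d) (X : Module.End ℚ (Fin d → ℚ)) : Prop :=
  ∀ P, IsDeRhamBettiEnd QBar V.dR P → ∀ u, X (P u) = P (X u)

/-- The structure `V` is of CM type: all endomorphisms of the vector space which commute with the
de Rham-Betti endomorphisms commute with each other. -/
def IsCM (V : Structure d) : Prop :=
  ∀ X Y, InCommutant V X → InCommutant V Y → ∀ u, X (Y u) = Y (X u)

/-- `V` is (isomorphic to) `H^1(A)`. -/
def IsH1 {g : ℕ} (V : Structure d) (A : AbVar g) : Prop :=
  ∃ θ : (Fin d → ℚ) ≃ₗ[ℚ] A.H1, ∃ a : Fin d → Fin g ⊕ Fin g → QBar, ∀ i u,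
    V.dR i u = ∑ j, algebraMap QBar ℂ (a i j) * A.dR j (θ u)

/-- The smallest class of de Rham-Betti structures which contains the structures with the property `P`
and is closed under subobjects, quotients and extensions (`middle`: `V'' → V → V'` is exact in the
middle), tensor products and Tate twists (`tensor`: `V` is a subobject of `V' ⊗ V'' (w)`) and duals. -/
inductive Built (P : ∀ d : ℕ, Structure d → Prop) : ∀ {d : ℕ}, Structure d → Prop
  | base {d : ℕ} {V : Structure d} (h : P d V) : Built P V
  | middle {d d' d'' : ℕ} {V' : Structure d'} {V : Structure d} {V'' : Structure d''}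
      (f : (Fin d' → ℚ) →ₗ[ℚ] (Fin d → ℚ)) (p : (Fin d → ℚ) →ₗ[ℚ] (Fin d'' → ℚ))
      (hf : IsMap V' V f) (hp : IsMap V V'' p) (hex : ∀ u, p u = 0 → ∃ u', f u' = u)
      (h' : Built P V') (h'' : Built P V'') : Built P V
  | tensor {d d' d'' : ℕ} {V' : Structure d'} {V'' : Structure d''} {V : Structure d} (w : ℤ)
      (β : (Fin d' → ℚ) →ₗ[ℚ] (Fin d'' → ℚ) →ₗ[ℚ] (Fin d → ℚ)) (hβ : IsBilinear V' V'' V w β)
      (hs : Submodule.span ℚ {x | ∃ u v, β u v = x} = ⊤)
      (h' : Built P V') (h'' : Built P V'') : Built P V
  | dual {d d' : ℕ} {V' : Structure d'} {V : Structure d} (w : ℤ)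
      (b : (Fin d' → ℚ) →ₗ[ℚ] (Fin d → ℚ) →ₗ[ℚ] ℚ) (hb : IsPairing V' V w b)
      (hn : ∀ v, (∀ u, b u v = 0) → v = 0) (h' : Built P V') : Built P V

/-- The structure as a member of the family of all structures. -/
def toU (V : Structure d) : Pool.Agent.N192.GP.UU := ⟨d, ⟨V.dR, V.indep⟩⟩

/-- The structures from which a perfect Lie algebra splits off form a class which is closed under the
constructions. -/
theorem Built.sep {s : Pool.Agent.N192.GP.UU} {P : ∀ d : ℕ, Structure d → Prop}
    (hperf : Pool.Agent.N192.GP.ggU s ≤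
      Pool.Agent.N192.GP.brk (Pool.Agent.N192.GP.ggU s) (Pool.Agent.N192.GP.ggU s))
    (hP : ∀ (d : ℕ) (U : Structure d), P d U → Pool.Agent.N192.GP.SepU s (toU U))
    {V : Structure d} (h : Built P V) : Pool.Agent.N192.GP.SepU s (toU V) := by
  induction h with
  | base h => exact hP _ _ h
  | @middle _ _ _ V₁ V V₂ f p hf hp hex _ _ ih' ih'' =>
    exact Pool.Agent.N192.GP.sepU_middle (V' := toU V₁) (V := toU V) (V'' := toU V₂)
      hperf hf hp hex ih' ih''
  | @tensor _ _ _ V₁ V₂ V w β hβ hs' _ _ ih' ih'' =>
    exact Pool.Agent.N192.GP.sepU_tensor (V' := toU V₁) (V'' := toU V₂) (V := toU V)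
      hperf hβ hs' ih' ih''
  | @dual _ _ V₁ V w b hb hn _ ih' =>
    exact Pool.Agent.N192.GP.sepU_dual (V' := toU V₁) (V := toU V) hperf hb hn ih'

end Structures

section Classes

variable {g : ℕ} (B : AbVar g) {J : Type} [Fintype J] [DecidableEq J] {d : J → ℕ}
  (V : ∀ j, Structure (d j))

/-- The dual of the Betti side of the sum of the `V j`. -/
abbrev HV (_ : ∀ j, Structure (d j)) : Type := ∀ j, Fin (d j) → ℚ

/-- The basis of the de Rham side of the sum of the `V j`. -/
def dRV (p : Σ j, Fin (d j)) : HV V →ₗ[ℚ] ℂ := ((V p.1).dR p.2).comp (LinearMap.proj p.1)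

/-- De Rham-Betti classes in `(⊕ V j) ^ {⊗ n'} (w)`. -/
def IsDRB {n' : ℕ} (w : ℤ) (χ : MultilinearMap ℚ (fun _ : Fin n' => HV V) ℚ) : Prop :=
  ∃ a : (Fin n' → Σ j, Fin (d j)) → QBar, ∀ v, twist w * (χ v : ℂ) =
    ∑ J, algebraMap QBar ℂ (a J) * ∏ l, dRV V (J l) (v l)

/-- `H^n(B, ℚ) ⊗ (⊕ V j) ^ {⊗ n'}`: the forms in `n` variables in the homology of `B`, indexed by the set
`κ` of `n` elements, and in `n'` variables in the dual of `⊕ V j`, which are alternating in the
variables in the homology of `B`. -/
abbrev Mixed (κ : Type) (n' : ℕ) : Type :=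
  B.H1 [⋀^κ]→ₗ[ℚ] (MultilinearMap ℚ (fun _ : Fin n' => HV V) ℚ)

/-- De Rham-Betti classes in `H^n(B) ⊗ (⊕ V j) ^ {⊗ n'} (w)`. -/
def IsDRBMixed {κ : Type} [Fintype κ] [DecidableEq κ] {n' : ℕ} (w : ℤ) (φ : Mixed B V κ n') :
    Prop :=
  ∃ a : (κ → Fin g ⊕ Fin g) → (Fin n' → Σ j, Fin (d j)) → QBar,
    ∀ u v, twist w * (φ u v : ℂ) = ∑ J, ∑ J', algebraMap QBar ℂ (a J J') *
      ((∏ l, B.dR (J l) (u l)) * ∏ l, dRV V (J' l) (v l))

/-- `φ` is a sum of products of linear combinations of products of `k` divisor classes on `B` and of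
de Rham-Betti classes in `(⊕ V j) ^ {⊗ n'} (w - k)`. -/
def Splits {k n' : ℕ} (w : ℤ) (φ : Mixed B V (Fin k × Fin 2) n') : Prop :=
  ∃ (N : ℕ) (ψ : Fin N → B.H1 [⋀^Fin k × Fin 2]→ₗ[ℚ] ℚ)
    (χ : Fin N → MultilinearMap ℚ (fun _ : Fin n' => HV V) ℚ),
    (∀ l, IsSumOfProducts B (ψ l) ∧ IsDRB V (w - k) (χ l)) ∧ ∀ u v, φ u v = ∑ l, ψ l u * χ l v

/-- All de Rham-Betti classes in `H^n(B) ⊗ (⊕ V j) ^ {⊗ n'} (w)` are such sums if `n` is even, and they
are zero if `n` is odd. -/
def ClassesSplit : Prop :=
  ∀ (n' : ℕ) (w : ℤ), (∀ (k : ℕ) (φ : Mixed B V (Fin k × Fin 2) n'), IsDRBMixed B V w φ →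
    Splits B V w φ) ∧
    ∀ (n : ℕ) (φ : Mixed B V (Fin n) n'), Odd n → IsDRBMixed B V w φ → φ = 0

variable {B V}

theorem classesSplit (hs : V5helper88.ID.Sy B)
    (hd : ∀ Y, V5helper88.HR.Block (V5helper88.HR.HH (V5helper88.ID.bs B)) Y → finrank ℂ Y ≤ 4)
    (hV : ∀ j, Pool.Agent.N192.GP.SepU (V5helper88.ID.sA B) (toU (V j))) : ClassesSplit B V := by
  let V' : ∀ j, Pool.Agent.N192.GP.DRS (d j) := fun j => ⟨(V j).dR, (V j).indep⟩
  intro n' w
  refine ⟨fun k φ hφ => ?_, fun n φ hn hφ => ?_⟩
  · obtain ⟨N, ψ, χ, h1, h2⟩ := V5helper88.ID.even_split (V := V') hs hd hV hφ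
    refine ⟨N, ψ, χ, fun l => ⟨?_, (h1 l).2⟩, h2⟩
    have h3 := (h1 l).1
    unfold V5helper88.HR.QA at h3
    refine Submodule.span_mono ?_ h3
    rintro _ ⟨P, hP, rfl⟩
    refine ⟨_, fun i => divisor_of (hP i) (hs _ (hP i)), fun v => ?_⟩
    rw [V5helper88.HR.prd_apply]
    rfl
  · exact V5helper88.ID.odd_zero (V := V') hs hd hV hφ (by rwa [Fintype.card_fin])

end Classes

/-- The structures `H^1(A)` split off if the abelian varieties are independent. -/
theorem sep_H1 {s : Pool.Agent.N192.GP.UU} {d g : ℕ} {U : Structure d} {A : AbVar g}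
    (hperf : Pool.Agent.N192.GP.ggU s ≤
      Pool.Agent.N192.GP.brk (Pool.Agent.N192.GP.ggU s) (Pool.Agent.N192.GP.ggU s))
    (hU : IsH1 U A) (h : Pool.Agent.N192.GP.SepU s (V5helper88.ID.sA A)) :
    Pool.Agent.N192.GP.SepU s (toU U) := by
  obtain ⟨θ, a, ha⟩ := hU
  refine Pool.Agent.N192.GP.sepU_middle (V' := V5helper88.ID.sA A) (V := toU U)
    (V'' := V5helper88.ID.sA A) (f := θ.symm.toLinearMap) (p := 0) hperf ?_ ?_ ?_ h h
  · refine ⟨fun i j => a i ((Pool.Agent.N192.GP.eqv g).symm j), fun i u => ?_⟩
    have h1 : U.dR i (θ.symm u) = ∑ j, algebraMap QBar ℂ (a i j) * A.dR j u := by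
      have h2 := ha i (θ.symm u)
      rw [LinearEquiv.apply_symm_apply] at h2
      exact h2
    refine h1.trans ?_
    refine Eq.trans ?_ ((Pool.Agent.N192.GP.eqv g).sum_comp (fun j => algebraMap QBar ℂ
      (a i ((Pool.Agent.N192.GP.eqv g).symm j)) * (V5helper88.ID.sA A).2.eta j u))
    refine Finset.sum_congr rfl fun j _ => ?_
    rw [Equiv.symm_apply_apply]
    congr 1
    exact (V5helper88.ID.sA_eta A j u).symm
  · refine ⟨fun _ _ => 0, fun i u => ?_⟩
    rw [LinearMap.zero_apply, map_zero]
    refine (Finset.sum_eq_zero fun j _ => ?_).symm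
    rw [map_zero, zero_mul]
  · exact fun u _ => ⟨θ u, θ.symm_apply_apply u⟩

/-- **The exceptional abelian varieties of a de Rham-Betti structure.** -/
theorem result : ∃ E : ∀ {d : ℕ}, Structure d → ∀ {g : ℕ}, AbVar g → Prop,
    (∀ {d g : ℕ} (U : Structure d) (B : AbVar g), AllSymmetric B → IsCM U → ¬E U B) ∧
    (∀ {m : ℕ}, m = 2 ∨ m = 4 → ∀ {d g h : ℕ} (U : Structure d) (B : AbVar g) (C : AbVar h),
      IsH1 U C → IsOfType B m → IsOfType C m → NoHom B C → NoHom C B → ¬E U B) ∧
    (∀ {m : ℕ}, m = 2 ∨ m = 4 → ∀ {N : ℕ} {g : Fin N → ℕ} (A : ∀ i, AbVar (g i)),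
      (∀ i, IsOfType (A i) m) → (∀ i j, i ≠ j → NoHom (A i) (A j)) →
      ∀ {d : ℕ} (U : Structure d), (∀ i, E U (A i)) → 3 * N ≤ d ^ 2) ∧
    (∀ {h : ℕ} (B : AbVar h), AllSymmetric B → SmallBlocks B → ∀ {J : Type} [Fintype J]
      [DecidableEq J] {d : J → ℕ} (V : ∀ j, Structure (d j)),
      (∀ j, Built (fun _ U => ¬E U B) (V j)) → ClassesSplit B V) ∧
    (∀ {m : ℕ}, m = 2 ∨ m = 4 → ∀ {I : Type} {g : I → ℕ} (A : ∀ i, AbVar (g i)),
      (∀ i, IsOfType (A i) m) → (∀ i j, i ≠ j → NoHom (A i) (A j)) →
      ∀ {h : ℕ} (B : AbVar h), AllSymmetric B → ∀ {K : Type} [Fintype K] (e : K → I)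
      (p : ∀ a, B.H1 →ₗ[ℚ] (A (e a)).H1), (∀ a, IsHom B (A (e a)) (p a)) →
      (∀ u, (∀ a, p a u = 0) → u = 0) → ∀ {J : Type} [Fintype J] [DecidableEq J] {d : J → ℕ}
      (V : ∀ j, Structure (d j)),
      (∀ a j, Built (fun _ U => ¬E U (A (e a))) (V j)) → ClassesSplit B V) := by
  have hind : ∀ {m : ℕ}, m = 2 ∨ m = 4 → ∀ {g g' : ℕ} (C : AbVar g) (C' : AbVar g'),
      IsOfType C m → IsOfType C' m → NoHom C C' → NoHom C' C →
      Pool.Agent.N192.GP.SepU (V5helper88.ID.sA C) (V5helper88.ID.sA C') :=
    fun hm _ _ C C' h h' h1 h2 => V5helper88.ID.sep_pair' hm h.ad h'.ad h.sy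
      (V5helper88.ID.sym_prod h.sy h'.sy (fun f hf => h1 f (isHom_iff.2 hf))
        fun f hf => h2 f (isHom_iff.2 hf))
  refine ⟨fun U _ B => ¬Pool.Agent.N192.GP.SepU (V5helper88.ID.sA B) (toU U),
    fun U B hB h h' => ?_, fun hm _ _ _ U B C hU hB hC h1 h2 h' => ?_,
    fun hm _ _ A hA hom _ U hE => ?_, fun B hB hr _ _ _ _ V hV => ?_,
    fun {m} hm _ _ A hA hom _ B hB _ _ e p hp hinj _ _ _ _ V hV => ?_⟩
  · have hs : V5helper88.ID.Sy B := fun P hP => hB P (isEnd_iff.2 hP)
    exact h' (V5helper88.ID.sepU_cm (V := toU U) hs.perf fun X Y hX hY =>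
      LinearMap.ext (h X Y (fun P hP u => LinearMap.congr_fun (hX P hP) u)
        fun P hP u => LinearMap.congr_fun (hY P hP) u))
  · exact h' (sep_H1 hB.sy.perf hU (hind hm _ _ hB hC h1 h2))
  · have h1 := V5helper88.ID.exc_bound (V := toU U) (fun i => (hA i).sy.perf)
      (fun i j hij => hind hm _ _ (hA i) (hA j) (hom i j hij) (hom j i hij.symm))
      Finset.univ (fun i _ => hE i)
    rw [Finset.card_univ, Fintype.card_fin, ← pow_two] at h1
    exact h1
  · have hs : V5helper88.ID.Sy B := fun P hP => hB P (isEnd_iff.2 hP)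
    obtain ⟨P, hP, hm⟩ := hr
    exact classesSplit hs (V5helper88.HR.block_le (isEnd_iff.1 hP) hm (V5helper88.ID.bs B)
      (V5helper88.HR.sys_of_sym _ hs)) fun j => (hV j).sep hs.perf fun d U hU => not_not.1 hU
  · have hp' : ∀ a, V5helper88.ID.IsHm B (A (e a)) (p a) := fun a => isHom_iff.1 (hp a)
    have hperf := fun i => (hA i).sy.perf
    refine classesSplit (fun P hP => hB P (isEnd_iff.2 hP)) (fun Y hY => ?_) fun j => ?_
    · rw [V5helper88.ID.ad_joint (fun i => (hA i).ad) hp' hinj Y hY]
      rcases hm with rfl | rfl <;> norm_num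
    · exact V5helper88.ID.sep_joint hperf (fun i j hij => hind hm _ _ (hA i) (hA j)
        (hom i j hij) (hom j i hij.symm)) hp' hinj fun a =>
        (hV a j).sep (hperf (e a)) fun d U hU => not_not.1 hU

end Pool.Agent.Results.MP_bf54cf_ag.SurfacesSplitOff
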